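import Pool.Agent.helper8.T6.SpecC2

/-!
# T6, row TEU: the sum over `d` converges
-/

set_option autoImplicit false

namespace Pool.Agent.T6

open Finset Pool.Agent.T5

theorem TEU_arith (D : ℕ) : ∑ a ∈ range D, ((a : ℝ) + 1) * (3 / 4) ^ a = 16 - (4 * D + 16) * (3 / 4) ^ D := by
  induction D with
  | zero => norm_num
  | succ n ih =>
    rw [sum_range_succ, ih]
    push_cast
    ring

theorem TEU_Icc (D : ℕ) : ∑ a ∈ Icc 1 D, ((a : ℝ) + 1) * (3 / 4) ^ a ≤ 16 := by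
  have h1 : Icc 1 D ⊆ range (D + 1) := by
    intro a ha
    rw [mem_Icc] at ha
    rw [mem_range]
    omega
  have h2 : ∑ a ∈ Icc 1 D, ((a : ℝ) + 1) * (3 / 4) ^ a ≤ ∑ a ∈ range (D + 1), ((a : ℝ) + 1) * (3 / 4) ^ a :=
    sum_le_sum_of_subset_of_nonneg h1 fun _ _ _ => by positivity
  refine h2.trans ?_
  rw [TEU_arith]
  have h3 : (0 : ℝ) ≤ (4 * ((D + 1 : ℕ) : ℝ) + 16) * (3 / 4) ^ (D + 1) := by positivity
  linarith

theorem TEU_pow (a : ℕ) : (4 / 3 : ℝ) ^ a ≤ 4 * 2 ^ (max 2 ((a + 1) / 2) - 2) := by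
  set j := (a + 1) / 2 with hj
  have h1 : a ≤ 2 * j := by omega
  have h2 : (4 / 3 : ℝ) ^ a ≤ 2 ^ j := by
    calc (4 / 3 : ℝ) ^ a ≤ (4 / 3 : ℝ) ^ (2 * j) := pow_le_pow_right₀ (by norm_num) h1
      _ = (16 / 9 : ℝ) ^ j := by
        rw [pow_mul]
        norm_num
      _ ≤ 2 ^ j := pow_le_pow_left₀ (by norm_num) (by norm_num) j
  refine h2.trans ?_
  have h3 : j ≤ max 2 j - 2 + 2 := by omega
  calc (2 : ℝ) ^ j ≤ 2 ^ (max 2 j - 2 + 2) := pow_le_pow_right₀ (by norm_num) h3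
    _ = 4 * 2 ^ (max 2 j - 2) := by
      rw [pow_add]
      ring

theorem TEU_gg (K : ℝ) (hK : 1 ≤ K) (p a : ℕ) (hp : 2 ≤ p) :
    gg K p a ≤ 4 * K * (1 / (p : ℝ) ^ 2) * (((a : ℝ) + 1) * (3 / 4) ^ a) := by
  have hp' : (2 : ℝ) ≤ p := by exact_mod_cast hp
  have hp0 : (0 : ℝ) < p := by linarith
  unfold gg
  have h1 : (p : ℝ) ^ 2 * 2 ^ (max 2 ((a + 1) / 2) - 2) ≤ (p : ℝ) ^ (max 2 ((a + 1) / 2)) := by
    have h2 : max 2 ((a + 1) / 2) = 2 + (max 2 ((a + 1) / 2) - 2) := by omega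
    calc (p : ℝ) ^ 2 * 2 ^ (max 2 ((a + 1) / 2) - 2)
        ≤ (p : ℝ) ^ 2 * (p : ℝ) ^ (max 2 ((a + 1) / 2) - 2) :=
          mul_le_mul_of_nonneg_left (pow_le_pow_left₀ (by norm_num) hp' _) (by positivity)
      _ = (p : ℝ) ^ (max 2 ((a + 1) / 2)) := by rw [← pow_add, ← h2]
  have h2 := TEU_pow a
  have h3 : (1 : ℝ) ≤ (3 / 4 : ℝ) ^ a * (4 * 2 ^ (max 2 ((a + 1) / 2) - 2)) := by
    have h4 : (3 / 4 : ℝ) ^ a * (4 / 3 : ℝ) ^ a = 1 := by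
      rw [← mul_pow]
      norm_num
    calc (1 : ℝ) = (3 / 4 : ℝ) ^ a * (4 / 3 : ℝ) ^ a := h4.symm
      _ ≤ _ := mul_le_mul_of_nonneg_left h2 (by positivity)
  rw [div_le_iff₀ (by positivity)]
  calc K * ((a : ℝ) + 1) = K * ((a : ℝ) + 1) * 1 := by ring
    _ ≤ K * ((a : ℝ) + 1) * ((3 / 4 : ℝ) ^ a * (4 * 2 ^ (max 2 ((a + 1) / 2) - 2))) :=
        mul_le_mul_of_nonneg_left h3 (by positivity)
    _ = 4 * K * (1 / (p : ℝ) ^ 2) * (((a : ℝ) + 1) * (3 / 4) ^ a) *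
          ((p : ℝ) ^ 2 * 2 ^ (max 2 ((a + 1) / 2) - 2)) := by
        field_simp
    _ ≤ 4 * K * (1 / (p : ℝ) ^ 2) * (((a : ℝ) + 1) * (3 / 4) ^ a) * (p : ℝ) ^ (max 2 ((a + 1) / 2)) :=
        mul_le_mul_of_nonneg_left h1 (by positivity)

theorem TEU_inv (D : ℕ) : ∑ p ∈ (range (D + 2)).filter Nat.Prime, 1 / (p : ℝ) ^ 2 ≤ 1 - 1 / ((D : ℝ) + 1) := by
  induction D with
  | zero =>
    have h1 : (range (0 + 2)).filter Nat.Prime = ∅ := by decide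
    rw [h1]
    norm_num
  | succ n ih =>
    rw [show n + 1 + 2 = (n + 2) + 1 from rfl, range_add_one, filter_insert]
    have hn : (0 : ℝ) ≤ n := Nat.cast_nonneg n
    have h2 : 1 / (((n + 2 : ℕ) : ℝ)) ^ 2 ≤ 1 / ((n : ℝ) + 1) - 1 / ((n : ℝ) + 2) := by
      rw [div_sub_div _ _ (by positivity) (by positivity), div_le_div_iff₀ (by positivity) (by positivity)]
      push_cast
      nlinarith
    have h3 : ((n + 1 : ℕ) : ℝ) + 1 = n + 2 := by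
      push_cast
      ring
    rw [h3]
    split_ifs with h
    · rw [sum_insert (by simp)]
      linarith
    · have h4 : (0 : ℝ) ≤ 1 / (((n + 2 : ℕ) : ℝ)) ^ 2 := by positivity
      linarith

theorem TEU_inv' (D : ℕ) : ∑ p ∈ (range (D + 1)).filter Nat.Prime, 1 / (p : ℝ) ^ 2 ≤ 1 := by
  have h1 : (range (D + 1)).filter Nat.Prime ⊆ (range (D + 2)).filter Nat.Prime :=
    filter_subset_filter _ (range_subset_range.2 (by omega))
  have h2 : ∑ p ∈ (range (D + 1)).filter Nat.Prime, 1 / (p : ℝ) ^ 2 ≤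
      ∑ p ∈ (range (D + 2)).filter Nat.Prime, 1 / (p : ℝ) ^ 2 :=
    sum_le_sum_of_subset_of_nonneg h1 fun _ _ _ => by positivity
  refine h2.trans ((TEU_inv D).trans ?_)
  have h3 : (0 : ℝ) ≤ 1 / ((D : ℝ) + 1) := by positivity
  linarith

theorem TEU (hTEA : TEA_stmt) : TEU_stmt := by
  intro K hK
  refine ⟨Real.exp (64 * K), Real.one_le_exp (by positivity), fun D => ?_⟩
  refine (hTEA (gg K) D (fun p a => by unfold gg; positivity)).trans ?_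
  have h1 : ∏ p ∈ (range (D + 1)).filter Nat.Prime, (1 + ∑ a ∈ Icc 1 D, gg K p a) ≤
      ∏ p ∈ (range (D + 1)).filter Nat.Prime, Real.exp (64 * K * (1 / (p : ℝ) ^ 2)) := by
    refine prod_le_prod (fun p _ => ?_) (fun p hp => ?_)
    · have : 0 ≤ ∑ a ∈ Icc 1 D, gg K p a := sum_nonneg fun a _ => by unfold gg; positivity
      linarith
    · have hp2 : 2 ≤ p := (mem_filter.1 hp).2.two_le
      have h2 : ∑ a ∈ Icc 1 D, gg K p a ≤ 64 * K * (1 / (p : ℝ) ^ 2) := by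
        calc ∑ a ∈ Icc 1 D, gg K p a
            ≤ ∑ a ∈ Icc 1 D, 4 * K * (1 / (p : ℝ) ^ 2) * (((a : ℝ) + 1) * (3 / 4) ^ a) :=
              sum_le_sum fun a _ => TEU_gg K hK p a hp2
          _ = 4 * K * (1 / (p : ℝ) ^ 2) * ∑ a ∈ Icc 1 D, (((a : ℝ) + 1) * (3 / 4) ^ a) := by rw [mul_sum]
          _ ≤ 4 * K * (1 / (p : ℝ) ^ 2) * 16 := mul_le_mul_of_nonneg_left (TEU_Icc D) (by positivity)
          _ = 64 * K * (1 / (p : ℝ) ^ 2) := by ring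
      have h3 := Real.add_one_le_exp (64 * K * (1 / (p : ℝ) ^ 2))
      linarith
  refine h1.trans ?_
  rw [← Real.exp_sum]
  refine Real.exp_le_exp.2 ?_
  rw [← mul_sum]
  calc 64 * K * ∑ p ∈ (range (D + 1)).filter Nat.Prime, 1 / (p : ℝ) ^ 2 ≤ 64 * K * 1 :=
        mul_le_mul_of_nonneg_left (TEU_inv' D) (by positivity)
    _ = 64 * K := mul_one _

end Pool.Agent.T6
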